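import Pool.Agent.R39.ST.Gad

/-!
A connected graph whose mean subtree order is smaller than its mean connected set size.
-/

namespace Pool.Agent.Results.MP_589357_co.MeanSubtreeBelowMeanConnected

open Finset
open scoped Classical

/-- `s_k(G)`: the number of subtrees of `G` (subgraphs of `G` that are trees) with exactly
`k` vertices. -/
noncomputable def numSubtrees {V : Type} (G : SimpleGraph V) (k : ℕ) : ℕ :=
  Set.ncard {H : G.Subgraph | H.coe.IsTree ∧ H.verts.ncard = k}

/-- `μ(G)`: the mean subtree order of `G`. -/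
noncomputable def meanSubtreeOrder {V : Type} [Fintype V] (G : SimpleGraph V) : ℝ :=
  (∑ k ∈ Icc 1 (Fintype.card V), (k : ℝ) * (numSubtrees G k : ℝ)) /
    (∑ k ∈ Icc 1 (Fintype.card V), (numSubtrees G k : ℝ))

/-- The connected sets of `G`: the vertex sets inducing a connected subgraph
(Mathlib's `Connected` includes being nonempty). -/
noncomputable def connectedSets {V : Type} [Fintype V] (G : SimpleGraph V) :
    Finset (Finset V) :=
  univ.filter (fun S : Finset V => (G.induce (S : Set V)).Connected)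

/-- `av(G)`: the mean size of a connected set of `G`. -/
noncomputable def meanConnectedSize {V : Type} [Fintype V] (G : SimpleGraph V) : ℝ :=
  (∑ S ∈ connectedSets G, (S.card : ℝ)) / ((connectedSets G).card : ℝ)

/-- There is a connected graph `G` with `μ(G) < av(G)`. -/
theorem result : ∃ (n : ℕ) (G : SimpleGraph (Fin n)),
    G.Connected ∧ meanSubtreeOrder G < meanConnectedSize G := by
  refine ⟨2360 + 2 * 12 + 2, Pool.Agent.R39.ST.neck 2360 317 12 2,
    Pool.Agent.R39.ST.neck_connected (by norm_num) (by norm_num) (by norm_num), ?_⟩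
  have hs : ∀ {V : Type} [Fintype V] (G : SimpleGraph V), meanSubtreeOrder G =
      ((Pool.Agent.R39.ST.P (MonoidWithZeroHom.id ℕ) G univ
        (fun _ => Pool.Agent.R39.ST.Du.x)).b : ℝ) /
      ((Pool.Agent.R39.ST.P (MonoidWithZeroHom.id ℕ) G univ
        (fun _ => Pool.Agent.R39.ST.Du.x)).a : ℝ) := by
    intro V _ G
    unfold meanSubtreeOrder
    rw [← Pool.Agent.R39.ST.count_a, ← Pool.Agent.R39.ST.count_b]
    rfl
  have hc : ∀ {V : Type} [Fintype V] (G : SimpleGraph V), meanConnectedSize G =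
      ((Pool.Agent.R39.ST.P Pool.Agent.R39.ST.sgn G univ
        (fun _ => Pool.Agent.R39.ST.Du.x)).b : ℝ) /
      ((Pool.Agent.R39.ST.P Pool.Agent.R39.ST.sgn G univ
        (fun _ => Pool.Agent.R39.ST.Du.x)).a : ℝ) := by
    intro V _ G
    unfold meanConnectedSize
    have e : connectedSets G = Pool.Agent.R39.ST.conn G := by
      ext S
      rw [Pool.Agent.R39.ST.mem_conn]
      simp [connectedSets]
    rw [← Pool.Agent.R39.ST.conn_a, ← Pool.Agent.R39.ST.conn_b, e]
    push_cast
    rfl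
  rw [hs, hc, Pool.Agent.R39.ST.neck2 (by norm_num) (by norm_num) (by norm_num),
    Pool.Agent.R39.ST.neck2 (by norm_num) (by norm_num) (by norm_num)]
  have e1 : (MonoidWithZeroHom.id ℕ) 3 = 3 := rfl
  have e2 : (MonoidWithZeroHom.id ℕ) 2360 = 2360 := rfl
  have e3 : Pool.Agent.R39.ST.sgn 3 = 1 := rfl
  have e4 : Pool.Agent.R39.ST.sgn 2360 = 1 := rfl
  rw [e1, e2, e3, e4]
  simp only
  have hp1 : 0 < (Pool.Agent.R39.ST.neckN 2360 317 12 (3 + 3, 2 + 2 * 3) (3, 4) 2360).1 := by
    decide +kernel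
  have hp0 : 0 < (Pool.Agent.R39.ST.neckN 2360 317 12 (3 + 1, 2 + 2 * 1) (3, 4) 1).1 := by
    decide +kernel
  have hlt : (Pool.Agent.R39.ST.neckN 2360 317 12 (3 + 3, 2 + 2 * 3) (3, 4) 2360).2 *
      (Pool.Agent.R39.ST.neckN 2360 317 12 (3 + 1, 2 + 2 * 1) (3, 4) 1).1 <
      (Pool.Agent.R39.ST.neckN 2360 317 12 (3 + 1, 2 + 2 * 1) (3, 4) 1).2 *
      (Pool.Agent.R39.ST.neckN 2360 317 12 (3 + 3, 2 + 2 * 3) (3, 4) 2360).1 := by
    decide +kernel
  rw [div_lt_div_iff₀ (by exact_mod_cast hp1) (by exact_mod_cast hp0)]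
  exact_mod_cast hlt

end Pool.Agent.Results.MP_589357_co.MeanSubtreeBelowMeanConnected
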